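import Pool.Agent.Results.MP_80d0cf_nt.MomentBound

/-! The two earlier statements, word for word, follow from `MomentBound`. -/

namespace Pool.Agent.Lib.MP_80d0cf_nt.UN

open Pool.Agent.Results.MP_80d0cf_nt

theorem momentUpperBound (A : ℝ) (h4 : 4 ≤ A) (h12 : A ≤ 12) (ε : ℝ) (hε : 0 < ε) :
    ∃ C : ℝ, ∀ T : ℝ, 1 ≤ T →
      T⁻¹ * ∫ t in (0 : ℝ)..T, ‖riemannZeta (1 / 2 + t * Complex.I)‖ ^ A ≤
        C * T ^ (max (5 * (A - 4) / 42) ((3 * A - 13) / 23) + ε) := by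
  obtain ⟨δ, hδ, h⟩ := MomentBound.result
  obtain ⟨C, h⟩ := h A h4 h12 ε hε
  refine ⟨|C|, fun T hT => (h T hT).trans (mul_le_mul (le_abs_self C)
    (Real.rpow_le_rpow_of_exponent_le hT ?_) (by positivity) (abs_nonneg C))⟩
  linarith [mul_nonneg hδ.le (le_max_left 0 (11 * A - 86))]

theorem twelfthMoment : ∃ δ C : ℝ, 0 < δ ∧ ∀ T : ℝ, 1 ≤ T →
    T⁻¹ * ∫ t in (0 : ℝ)..T, ‖riemannZeta (1 / 2 + t * Complex.I)‖ ^ 12 ≤ C * T ^ (1 - δ) := by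
  obtain ⟨δ, hδ, h⟩ := MomentBound.result
  obtain ⟨C, h⟩ := h 12 (by norm_num) le_rfl δ hδ
  refine ⟨45 * δ, C, by positivity, fun T hT => ?_⟩
  have h1 := h T hT
  simp only [Real.rpow_ofNat] at h1
  refine h1.trans (le_of_eq ?_)
  congr 2
  norm_num
  ring

end Pool.Agent.Lib.MP_80d0cf_nt.UN
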