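import Mathlib

/-! Interpolation between two moments of a continuous non-negative function. -/

namespace Pool.Agent.Lib.MP_80d0cf_nt.UN

theorem zeta_cont : Continuous fun t : ℝ => ‖riemannZeta (1 / 2 + t * Complex.I)‖ := by
  refine continuous_iff_continuousAt.2 fun t => ContinuousAt.norm ?_
  have h : (1 / 2 + t * Complex.I : ℂ) ≠ 1 := fun h => by
    have := congrArg Complex.re h
    norm_num at this
  exact ContinuousAt.comp (f := fun t : ℝ => (1 / 2 + t * Complex.I : ℂ))
    (differentiableAt_riemannZeta h).continuousAt (by fun_prop)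

theorem split {x V a A b : ℝ} (hx : 0 ≤ x) (hV : 0 < V) (ha : 0 < a) (h1 : a ≤ A) (h2 : A ≤ b) :
    x ^ A ≤ V ^ (A - a) * x ^ a + V ^ (A - b) * x ^ b := by
  have p1 : 0 ≤ V ^ (A - a) * x ^ a := by positivity
  have p2 : 0 ≤ V ^ (A - b) * x ^ b := by positivity
  rcases hx.eq_or_lt with rfl | hx0
  · rw [Real.zero_rpow (by linarith)]; linarith
  rcases le_total x V with h | h
  · have : x ^ A ≤ V ^ (A - a) * x ^ a := by
      rw [show x ^ A = x ^ (A - a) * x ^ a by rw [← Real.rpow_add hx0]; congr 1; ring]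
      exact mul_le_mul_of_nonneg_right (Real.rpow_le_rpow hx h (by linarith)) (by positivity)
    linarith
  · have : x ^ A ≤ V ^ (A - b) * x ^ b := by
      rw [show x ^ A = x ^ (A - b) * x ^ b by rw [← Real.rpow_add hx0]; congr 1; ring]
      exact mul_le_mul_of_nonneg_right (Real.rpow_le_rpow_of_nonpos hV h (by linarith))
        (by positivity)
    linarith

theorem interp {f : ℝ → ℝ} (hf : Continuous f) (h0 : ∀ t, 0 ≤ f t) {T V a A b : ℝ} (hT : 0 ≤ T)
    (hV : 0 < V) (ha : 0 < a) (h1 : a ≤ A) (h2 : A ≤ b) :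
    ∫ t in (0 : ℝ)..T, f t ^ A ≤
      V ^ (A - a) * (∫ t in (0 : ℝ)..T, f t ^ a) + V ^ (A - b) * ∫ t in (0 : ℝ)..T, f t ^ b := by
  have c : ∀ s : ℝ, 0 < s → Continuous fun t => f t ^ s := fun s hs =>
    hf.rpow_const fun _ => Or.inr hs.le
  have ca := (c a ha).const_mul (V ^ (A - a))
  have cb := (c b (by linarith)).const_mul (V ^ (A - b))
  rw [← intervalIntegral.integral_const_mul, ← intervalIntegral.integral_const_mul,
    ← intervalIntegral.integral_add (ca.intervalIntegrable _ _) (cb.intervalIntegrable _ _)]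
  exact intervalIntegral.integral_mono_on hT ((c A (by linarith)).intervalIntegrable _ _)
    ((ca.add cb).intervalIntegrable _ _) fun t _ => split (h0 t) hV ha h1 h2

end Pool.Agent.Lib.MP_80d0cf_nt.UN
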